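import Pool.Agent.Helper30.TP.Cl
import Pool.Agent.Helper30.TP.FormHeight

/-!
# Truncated counts of contacts of points of a plane curve over a function field: definitions
-/

set_option autoImplicit false

namespace Pool.Agent.Helper30.TK

open MvPolynomial
open Pool.Agent.Helper16 (Place IsFunctionField)
open Pool.Agent.Helper30.TP (PEq nrm gs ht cl)

variable {k K : Type} [Field k] [Field K] [Algebra k K]

/-- Bounds for a derivation at all places. -/
structure DerB (δ : Derivation k K K) (c : Place k K → ℤ) : Prop where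
  nonneg : ∀ b, 0 ≤ c b
  fin : (Function.support c).Finite
  int : ∀ b z, b.val z ≤ 1 → b.val (δ z) ≤ WithZero.exp (c b)
  le : ∀ b z, b.val (δ z) ≤ WithZero.exp (c b + 1) * b.val z
  ge : ∀ b z, z ≠ 0 → b.val z ≠ 1 → WithZero.exp (1 - c b) * b.val z ≤ b.val (δ z)

/-- The vector of the derivatives. -/
def dv (δ : Derivation k K K) (x : Fin 3 → K) : Fin 3 → K := fun i => δ (x i)

/-- The expression `A(x) - U(x) (x × δx)_j`. -/
noncomputable def EE (δ : Derivation k K K) (A U : MvPolynomial (Fin 3) K) (j : Fin 3)
    (x : Fin 3 → K) : K :=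
  eval x A - eval x U * crossProduct x (dv δ x) j

/-- The point is a smooth point of the curve `g = 0` which solves the differential equation
`U_j(x) (x × δx)_j = A_j(x)` and is not a zero of the `U_j`. -/
structure Sol (δ : Derivation k K K) (g : MvPolynomial (Fin 3) K)
    (A U : Fin 3 → MvPolynomial (Fin 3) K) (x : Fin 3 → K) : Prop where
  ne : x ≠ 0
  zero : eval x g = 0
  smooth : ∃ i, eval x (pderiv i g) ≠ 0
  U_ne : ∀ j, eval x (U j) ≠ 0
  eq : ∀ j, EE δ (A j) (U j) j x = 0

end Pool.Agent.Helper30.TK
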