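import Pool.Agent.Helper30.TK.Defs
import Pool.Agent.Helper31.RRK.Der

/-!
# A derivation of the function field
-/

set_option autoImplicit false

namespace Pool.Agent.Helper30.TK

open MvPolynomial
open Pool.Agent.Helper16 (Place IsFunctionField)
open Pool.Agent.Helper30.TP (PEq nrm gs ht cl)

theorem exists_derB {k K : Type} [Field k] [IsAlgClosed k] [CharZero k] [Field K] [Algebra k K]
    (hK : IsFunctionField k K) :
    ∃ (δ : Derivation k K K) (c : Place k K → ℤ), DerB δ c := by
  classical
  obtain ⟨δ, hδ⟩ := Pool.Agent.Helper31.RRK.exists_ne_zero hK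
  have hv : ∀ (b : Place k K) (z : K), z ≠ 0 → b.val z = WithZero.exp (-(b.ord z)) := by
    intro b z hz
    have h0 : b.val z ≠ 0 := by simpa using hz
    rw [Place.ord, neg_neg, WithZero.exp_log h0]
  refine ⟨δ, fun b => |Pool.Agent.Helper31.RRK.ordDer b δ|, ?_, ?_, ?_, ?_, ?_⟩
  · intro b
    exact abs_nonneg _
  · refine (Pool.Agent.Helper31.RRK.ordDer_finite hK hδ).subset ?_
    intro b hb
    simpa using hb
  · intro b z hz
    by_cases h0 : δ z = 0
    · rw [h0, map_zero]
      exact zero_le
    · rw [hv b _ h0, WithZero.exp_le_exp]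
      have h1 := Pool.Agent.Helper31.RRK.ordDer_le b hK hz h0
      have h2 := neg_abs_le (Pool.Agent.Helper31.RRK.ordDer b δ)
      linarith
  · intro b z
    by_cases h0 : δ z = 0
    · rw [h0, map_zero]
      exact zero_le
    · have hz : z ≠ 0 := by
        rintro rfl
        exact h0 (map_zero δ)
      rw [hv b _ h0, hv b z hz, ← WithZero.exp_add, WithZero.exp_le_exp]
      have h1 := Pool.Agent.Helper31.RRK.le_ord_D b hK h0
      have h2 := neg_abs_le (Pool.Agent.Helper31.RRK.ordDer b δ)
      linarith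
  · intro b z hz hz1
    have ho : b.ord z ≠ 0 := by
      intro ho
      apply hz1
      rw [hv b z hz, ho, neg_zero, WithZero.exp_zero]
    have hk : ((b.ord z : ℤ) : k) ≠ 0 := by exact_mod_cast ho
    obtain ⟨h0, h1⟩ := Pool.Agent.Helper31.RRK.ord_D_eq b hK hδ hk
    rw [hv b _ h0, hv b z hz, ← WithZero.exp_add, WithZero.exp_le_exp]
    have h2 := le_abs_self (Pool.Agent.Helper31.RRK.ordDer b δ)
    linarith

end Pool.Agent.Helper30.TK
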