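import Pool.Agent.Helper30.TK.Chart
import Pool.Agent.Helper30.TP.Basic

/-!
# At almost all places the solutions have no contact with a given solution
-/

set_option autoImplicit false

namespace Pool.Agent.Helper30.TK

open MvPolynomial
open Pool.Agent.Helper16 (Place IsFunctionField)
open Pool.Agent.Helper30.TP (PEq nrm gs ht cl)

theorem OdeA_fin_gs {k K : Type} [Field k] [IsAlgClosed k] [Field K] [Algebra k K]
    (hK : IsFunctionField k K) (A : MvPolynomial (Fin 3) K) :
    {b : Place k K | ¬ gs b A ≤ 1}.Finite := by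
  by_cases h0 : A = 0
  · subst h0
    refine Set.Finite.subset Set.finite_empty ?_
    intro b hb
    apply hb
    rw [TP.formHeight_zero]
    exact zero_le
  · refine (TP.formHeight_support hK h0).subset ?_
    intro b hb h1
    apply hb
    have h2 : WithZero.log (gs b A) = 0 := h1
    have h3 : gs b A ≠ 0 := (TP.formHeight_pos h0).ne'
    rw [← WithZero.exp_log h3, h2, WithZero.exp_zero]

theorem OdeA_fin_val {k K : Type} [Field k] [IsAlgClosed k] [Field K] [Algebra k K]
    (hK : IsFunctionField k K) (f : K) : {b : Place k K | f ≠ 0 ∧ b.val f ≠ 1}.Finite := by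
  by_cases hf : f = 0
  · refine Set.Finite.subset Set.finite_empty ?_
    intro b hb
    exact hb.1 hf
  · refine (TP.finsum_log hK f hf).1.subset ?_
    intro b hb h1
    apply hb.2
    have h2 : WithZero.log (b.val f) = 0 := h1
    have h3 : b.val f ≠ 0 := by simpa using hf
    rw [← WithZero.exp_log h3, h2, WithZero.exp_zero]

theorem ode_ae {k K : Type} [Field k] [IsAlgClosed k] [Field K] [Algebra k K]
    (hK : IsFunctionField k K) {δ : Derivation k K K} {c : Place k K → ℤ} (hδ : DerB δ c)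
    {g : MvPolynomial (Fin 3) K} {D : ℕ} (hg : g.IsHomogeneous D)
    {A U : Fin 3 → MvPolynomial (Fin 3) K} {w : ℕ} (hw : 2 ≤ w)
    (hA : ∀ j, (A j).IsHomogeneous w) (hU : ∀ j, (U j).IsHomogeneous (w - 2))
    {P : Fin 3 → K} (hP : Sol δ g A U P) :
    {b : Place k K | ∃ x, Sol δ g A U x ∧ ¬ PEq P x ∧ 0 < cl b P x}.Finite := by
  have hfin : (Function.support c ∪ (⋃ j, {b : Place k K | ¬ gs b (A j) ≤ 1}) ∪
      (⋃ j, {b : Place k K | ¬ gs b (U j) ≤ 1}) ∪
      (⋃ i, {b : Place k K | P i ≠ 0 ∧ b.val (P i) ≠ 1}) ∪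
      (⋃ j, {b : Place k K | eval P (U j) ≠ 0 ∧ b.val (eval P (U j)) ≠ 1})).Finite := by
    refine (((hδ.fin.union ?_).union ?_).union ?_).union ?_
    · exact Set.finite_iUnion fun j => OdeA_fin_gs hK _
    · exact Set.finite_iUnion fun j => OdeA_fin_gs hK _
    · exact Set.finite_iUnion fun j => OdeA_fin_val hK _
    · exact Set.finite_iUnion fun j => OdeA_fin_val hK _
  refine hfin.subset ?_
  rintro b ⟨x, hx, hPx, hcl⟩
  by_contra hcon
  simp only [Set.mem_union, Set.mem_iUnion, Set.mem_ofPred_eq, Function.mem_support, not_or,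
    not_exists, not_and, not_not] at hcon
  obtain ⟨⟨⟨⟨hc, hgA⟩, hgU⟩, hPi⟩, hUP⟩ := hcon
  obtain ⟨p, hp⟩ := TP.exists_val_eq_nrm b P
  obtain ⟨hxp, hxn, hd⟩ := chart b hP.ne hx.ne hPx hp hcl
  have hPp : P p ≠ 0 := by
    intro h
    apply TP.nrm_ne_zero (b := b) hP.ne
    rw [← hp, h, map_zero]
  have hPp1 : b.val (P p) = 1 := hPi p hPp
  obtain ⟨v, hv⟩ : ∃ v : Fin 3 → K, v = (P p)⁻¹ • P := ⟨_, rfl⟩
  obtain ⟨u, hu⟩ : ∃ u : Fin 3 → K, u = (x p)⁻¹ • x := ⟨_, rfl⟩
  rw [← hv, ← hu] at hd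
  have hvS : Sol δ g A U v := by
    rw [hv]
    exact Sol.smul hg hw hA hU hP (inv_ne_zero hPp)
  have huS : Sol δ g A U u := by
    rw [hu]
    exact Sol.smul hg hw hA hU hx (inv_ne_zero hxp)
  have hvp : v p = 1 := by
    rw [hv, Pi.smul_apply, smul_eq_mul, inv_mul_cancel₀ hPp]
  have hup : u p = 1 := by
    rw [hu, Pi.smul_apply, smul_eq_mul, inv_mul_cancel₀ hxp]
  have hvn : nrm b v ≤ 1 := by
    rw [hv, TP.nrm_smul, map_inv₀, hPp1, ← hp, hPp1, inv_one, one_mul]
  have hun : nrm b u ≤ 1 := by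
    have h1 : b.val (x p) ≠ 0 := by simpa using hxp
    rw [hu, TP.nrm_smul, map_inv₀, ← hxn, inv_mul_cancel₀ h1]
  -- the size of the difference
  obtain ⟨ρ, hρ⟩ : ∃ ρ : WithZero (Multiplicative ℤ), ρ = nrm b (u - v) := ⟨_, rfl⟩
  have hρ1 : ρ < 1 := by
    rw [hρ, hd, ← WithZero.exp_zero, WithZero.exp_lt_exp]
    omega
  have hρ0 : ρ ≠ 0 := by
    rw [hρ, hd]
    exact WithZero.exp_ne_zero
  obtain ⟨q, hq⟩ := TP.exists_val_eq_nrm b (u - v)
  rw [← hρ, Pi.sub_apply] at hq
  have hpq : p ≠ q := by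
    rintro rfl
    rw [hup, hvp, sub_self, map_zero] at hq
    exact hρ0 hq.symm
  have hd0 : u q - v q ≠ 0 := by
    intro h
    rw [h, map_zero] at hq
    exact hρ0 hq.symm
  have hge := hδ.ge b (u q - v q) hd0 (by rw [hq]; exact hρ1.ne)
  rw [hc, sub_zero, hq] at hge
  obtain ⟨j, s, hs, hcr⟩ := cross_chart δ hpq
  have e1 := huS.eq j
  have e2 := hvS.eq j
  unfold EE at e1 e2
  rw [hcr u hup] at e1
  rw [hcr v hvp] at e2
  have hUv : b.val (eval v (U j)) = 1 := by
    rw [hv, TP.eval_smul_hom (hU j), map_mul, map_pow, map_inv₀, hPp1, inv_one, one_pow, one_mul]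
    exact hUP j (hP.U_ne j)
  have t1 := taylor_one b (A j) hun hvn
  have t2 := taylor_one b (U j) hun hvn
  rw [← hρ] at t1 t2
  have t1' : b.val (eval u (A j) - eval v (A j)) ≤ ρ :=
    t1.trans ((mul_le_mul' (hgA j) le_rfl).trans (one_mul ρ).le)
  have t2' : b.val (eval u (U j) - eval v (U j)) ≤ ρ :=
    t2.trans ((mul_le_mul' (hgU j) le_rfl).trans (one_mul ρ).le)
  have hUu : b.val (eval u (U j)) = 1 := by
    have h1 : eval u (U j) = eval v (U j) + (eval u (U j) - eval v (U j)) := by ring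
    rw [h1, Valuation.map_add_eq_of_lt_left, hUv]
    rw [hUv]
    exact t2'.trans_lt hρ1
  have hAv : b.val (eval v (A j)) ≤ 1 := (val_eval_le b (A j) hvn).trans (hgA j)
  have hs1 : b.val s = 1 := by
    rcases hs with h | h
    · rw [h, map_one]
    · rw [h, Valuation.map_neg, map_one]
  have key : eval u (U j) * eval v (U j) * s * δ (u q - v q) =
      (eval u (A j) - eval v (A j)) * eval v (U j) -
        eval v (A j) * (eval u (U j) - eval v (U j)) := by
    rw [map_sub]
    linear_combination (-(eval v (U j))) * e1 + (eval u (U j)) * e2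
  have h3 := congrArg b.val key
  rw [map_mul, map_mul, map_mul, hUu, hUv, hs1, one_mul, one_mul, one_mul] at h3
  have h4 : b.val (δ (u q - v q)) ≤ ρ := by
    rw [h3]
    refine (b.val.map_sub _ _).trans (max_le ?_ ?_)
    · rw [map_mul, hUv, mul_one]
      exact t1'
    · rw [map_mul]
      exact (mul_le_mul' hAv t2').trans (one_mul ρ).le
  have h5 := hge.trans h4
  have h6 : WithZero.exp (1 : ℤ) ≤ (1 : WithZero (Multiplicative ℤ)) := by
    have hρp : 0 < ρ := zero_lt_iff.2 hρ0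
    by_contra hlt
    rw [not_le] at hlt
    have h7 := mul_lt_mul_of_pos_right hlt hρp
    rw [one_mul] at h7
    exact absurd h5 (not_le.2 h7)
  rw [← WithZero.exp_zero, WithZero.exp_le_exp] at h6
  omega

end Pool.Agent.Helper30.TK
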