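import Pool.Agent.Helper63.TK.AuxF
import Pool.Agent.Helper63.TK.Dich
import Pool.Agent.Helper63.TK.LowM
import Pool.Agent.Helper63.TK.MainB
import Pool.Agent.Helper63.TK.WLoc
import Pool.Agent.Helper30.TP.Sup

/-!
# Truncated contacts of the points of a plane curve over a function field

Let `x n` be points of an irreducible plane curve over a function field of one variable, whose
heights tend to infinity. Then for every `N` there are finitely many of the points such that the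
number of the places at which one of these points and `x n` have the same reduction is at least
`N` times the height of `x n`, up to a constant.
-/

set_option autoImplicit false

namespace Pool.Agent.Helper30.TK

open MvPolynomial
open Pool.Agent.Helper16 (Place IsFunctionField)
open Pool.Agent.Helper30.TP
open Pool.Agent.Helper63.TK

variable {k K : Type} [Field k] [IsAlgClosed k] [Field K] [Algebra k K]

/-- Infinitely many solutions of a regular differential equation have bounded heights. -/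
theorem ode_false [CharZero k] [CharZero K] (hK : IsFunctionField k K)
    {δ : Derivation k K K} (hδ : δ ≠ 0) {x : ℕ → Fin 3 → K} {S : Set ℕ} (hS : S.Infinite)
    (hx : ∀ n ∈ S, x n ≠ 0) (hnp : ∀ n ∈ S, ∀ n' ∈ S, n ≠ n' → ¬ PEq (x n) (x n'))
    {g : MvPolynomial (Fin 3) K} {D : ℕ} (hg : g.IsHomogeneous D) (hirr : Irreducible g)
    (hgx : ∀ n ∈ S, eval (x n) g = 0) (hht : ∀ B : ℤ, {n | n ∈ S ∧ ht k (x n) ≤ B}.Finite)
    {u : ℕ} {U : MvPolynomial (Fin 3) K}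
    (hU : U.IsHomogeneous u) {A : Fin 3 → Fin 3 → MvPolynomial (Fin 3) K}
    (hA : ∀ i j, (A i j).IsHomogeneous (u + 2)) (hgU : ¬ g ∣ U)
    (hrel : ∀ n ∈ S, ∀ i j, eval (x n) U * wr δ i j (x n) = eval (x n) (A i j)) : False := by
  classical
  have hsing := finite_singular hx hnp hg hirr hgx hU hgU
  set S' : Set ℕ := S \ {n | n ∈ S ∧ (eval (x n) U = 0 ∨
    ∀ j, eval (x n) (pderiv j g) = 0)} with hS'
  have hS'inf : S'.Infinite := hS.sdiff hsing
  have hSS : ∀ n ∈ S', n ∈ S := fun n hn => hn.1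
  obtain ⟨Γ, C, E, hΓS, hE, hlow⟩ := sum_ht_cross_le hK hS'inf (fun n hn => hx n hn.1)
    (fun n hn n' hn' h => hnp n hn.1 n' hn'.1 h) hg hirr (fun n hn => hgx n hn.1) 1
  have hmem : ∀ n ∈ S', eval (x n) U ≠ 0 ∧ ∃ j, eval (x n) (pderiv j g) ≠ 0 := by
    intro n hn
    have h1 : ¬ (eval (x n) U = 0 ∨ ∀ j, eval (x n) (pderiv j g) = 0) :=
      fun h => hn.2 ⟨hn.1, h⟩
    push Not at h1
    exact h1
  have hbd : ∀ i ∈ Γ, ∃ Ci : ℤ, ∀ n ∈ S', n ≠ i →
      ht k (x i) + ht k (x n) - ht k (crossProduct (x i) (x n)) ≤ Ci := by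
    intro i hi
    have hiS := hΓS hi
    obtain ⟨hUi, hsm⟩ := hmem i hiS
    obtain ⟨p, j₁, j₂, e, r, α, β, E', H, hode⟩ := exists_ode δ (hx i (hSS i hiS)) hg
      (hgx i (hSS i hiS)) hsm hU hA hUi (hrel i (hSS i hiS))
    obtain ⟨Ci, hCi⟩ := ode_contact hK hδ (hx i (hSS i hiS)) hode
    exact ⟨Ci, fun n hn hni => hCi _ ⟨hgx n hn.1, (hmem n hn).1, hrel n hn.1⟩ (hx n hn.1)
      (hnp i (hSS i hiS) n hn.1 hni.symm)⟩
  choose! Ci hCi using hbd
  set M : ℤ := ∑ i ∈ Γ, Ci i + C - ∑ i ∈ Γ, ht k (x i) with hM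
  obtain ⟨n, hnS, hn⟩ := (hS'inf.sdiff ((hE.union Γ.finite_toSet).union (hht M))).nonempty
  rw [Set.mem_union, Set.mem_union, not_or, not_or] at hn
  obtain ⟨⟨hnE, hnΓ⟩, hnM⟩ := hn
  apply hnM
  refine ⟨hnS.1, ?_⟩
  have h1 := hlow n hnS hnE
  have h2 : ∑ i ∈ Γ, (ht k (x i) + ht k (x n) -
      ht k (crossProduct (x i) (x n))) ≤ ∑ i ∈ Γ, Ci i :=
    Finset.sum_le_sum fun i hi => hCi i hi n hnS (fun h => hnΓ (h ▸ hi))
  rw [Finset.sum_sub_distrib, Finset.sum_add_distrib, Finset.sum_const, nsmul_eq_mul] at h2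
  push_cast at h1
  rw [hM]
  linarith

/-- The truncated count when there is no differential equation. -/
theorem trunc_alpha [CharZero k] (hK : IsFunctionField k K) {δ : Derivation k K K} (hδ : δ ≠ 0)
    {x : ℕ → Fin 3 → K} {S : Set ℕ} (hS : S.Infinite)
    (hx : ∀ n ∈ S, x n ≠ 0) (hnp : ∀ n ∈ S, ∀ n' ∈ S, n ≠ n' → ¬ PEq (x n) (x n'))
    {g : MvPolynomial (Fin 3) K} {D : ℕ} (hg : g.IsHomogeneous D) (hirr : Irreducible g)
    (hD : 0 < D) (hgx : ∀ n ∈ S, eval (x n) g = 0) (N : ℕ) {i₀ j₀ : Fin 3}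
    (halpha : ∀ A U : MvPolynomial (Fin 3) K, A.IsHomogeneous (D ^ 2 + 2 * D + N + 3) →
      U.IsHomogeneous (D ^ 2 + 2 * D + N + 3 - 2) → ¬ (g ∣ A ∧ g ∣ U) →
        {n | n ∈ S ∧ eval (x n) A - eval (x n) U * wr δ i₀ j₀ (x n) = 0}.Finite) :
    ∃ (Γ : Finset ℕ) (C : ℤ) (E : Set ℕ), (↑Γ ⊆ S) ∧ E.Finite ∧ ∀ n ∈ S, n ∉ E →
      n ∉ Γ ∧ (N : ℤ) * ht k (x n) ≤
        (({b : Place k K | ∃ i ∈ Γ, 0 < cl b (x i) (x n)}.ncard : ℕ) : ℤ) + C := by
  classical
  set w : ℕ := D ^ 2 + 2 * D + N + 3 with hw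
  obtain ⟨Γ, C, E, hΓS, hE, hcard, hlow⟩ := sum_ht_cross_le_card hK hS hx hnp hg hirr hgx
    (D ^ 2 + 2 * D + 2 * N + 4)
  obtain ⟨A, U, hA, hU, hAU, hrel⟩ := exists_aux (x := x) (Γ := Γ) hg hirr.ne_zero hD
    (m := D ^ 2 + (D ^ 2 + 2 * D + 2 * N + 4)) (w := w) (by nlinarith) hcard
    (by rw [hw]; nlinarith) (by rw [hw]; nlinarith) (fun n => wr δ i₀ j₀ (x n))
  have hE2 := halpha A U hA hU hAU
  set ψ : ℕ → K := fun n => eval (x n) A - eval (x n) U * wr δ i₀ j₀ (x n) with hψ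
  obtain ⟨c, hcs, hc0, hc1, hc2⟩ := wloc hK δ hδ i₀ j₀ (by rw [hw]; omega : 2 ≤ w) hA hU
  set Cst : ℤ := ∑ i ∈ Γ, ∑ j ∈ Γ.erase i, ∑ᶠ b : Place k K, cl b (x i) (x j) with hCst
  refine ⟨Γ, ∑ᶠ b, c b + Cst + C - ∑ i ∈ Γ, ht k (x i), E ∪ {n | n ∈ S ∧ ψ n = 0} ∪ Γ, hΓS,
    (hE.union hE2).union Γ.finite_toSet, fun n hn hnE => ?_⟩
  rw [Set.mem_union, Set.mem_union, not_or, not_or] at hnE
  obtain ⟨⟨hnE, hnψ⟩, hnΓ⟩ := hnE
  have hψn : ψ n ≠ 0 := fun h => hnψ ⟨hn, h⟩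
  have hnΓ' : n ∉ Γ := fun h => hnΓ (Finset.mem_coe.2 h)
  refine ⟨hnΓ', ?_⟩
  have hdist : ∀ i ∈ Γ, ¬ PEq (x i) (x n) := fun i hi =>
    hnp i (hΓS hi) n hn fun h => hnΓ' (h ▸ hi)
  have hne0 : ∀ i ∈ Γ, x i ≠ 0 := fun i hi => hx i (hΓS hi)
  set B : Set (Place k K) := {b : Place k K | ∃ i ∈ Γ, 0 < cl b (x i) (x n)} with hB
  have hsupp1 : ∀ i ∈ Γ, (Function.support fun b : Place k K => cl b (x i) (x n)).Finite :=
    fun i hi => cl_support hK (hne0 i hi) (hx n hn) (hdist i hi)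
  have hbad : B.Finite := by
    refine ((Finset.finite_toSet Γ).biUnion hsupp1).subset ?_
    rintro b ⟨i, hi, hpos⟩
    rw [Set.mem_iUnion₂]
    exact ⟨i, hi, hpos.ne'⟩
  set J : Place k K → ℤ := Set.indicator B (fun _ => 1) with hJ
  set M : Place k K → ℤ := fun b => w * WithZero.log (nrm b (x n)) + c b -
    WithZero.log (b.val (ψ n)) with hM
  have hJ0 : ∀ b, 0 ≤ J b := fun b => Set.indicator_nonneg (fun _ _ => by norm_num) b
  have hM0 : ∀ b, 0 ≤ M b := fun b => by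
    have := hc1 b (x n) (hx n hn) hψn
    rw [hM]
    change 0 ≤ _
    linarith
  have hloc : ∀ b : Place k K, ∑ i ∈ Γ, cl b (x i) (x n) ≤
      (M b + J b) + ∑ i ∈ Γ, ∑ j ∈ Γ.erase i, cl b (x i) (x j) := by
    intro b
    refine sum_cl_le b Γ x (x n) hne0 (hx n hn) hdist
      (fun i hi j hj hij => hnp i (hΓS hi) j (hΓS hj) hij)
      (add_nonneg (hM0 b) (hJ0 b)) ?_
    intro i hi
    by_cases hpos : 0 < cl b (x i) (x n)
    · have h1 : cl b (x i) (x n) - 1 ≤ M b := by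
        have := hc2 b (x i) (x n) (hne0 i hi) (hx n hn) (hdist i hi)
          (by rw [hrel i hi, sub_self]) hψn
        rw [hM]
        change _ ≤ _
        linarith
      have h2 : J b = 1 := Set.indicator_of_mem (f := fun _ => (1 : ℤ))
        (show b ∈ B from ⟨i, hi, hpos⟩)
      linarith
    · exact (not_lt.1 hpos).trans (add_nonneg (hM0 b) (hJ0 b))
  have hsupp3 : ∀ i ∈ Γ, ∀ j ∈ Γ.erase i, (Function.support fun b : Place k K =>
      cl b (x i) (x j)).Finite := fun i hi j hj =>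
    cl_support hK (hne0 i hi) (hne0 j (Finset.mem_of_mem_erase hj))
      (hnp i (hΓS hi) j (hΓS (Finset.mem_of_mem_erase hj)) (Finset.ne_of_mem_erase hj).symm)
  have hs3 : ∀ i ∈ Γ, (Function.support fun b : Place k K => ∑ j ∈ Γ.erase i,
      cl b (x i) (x j)).Finite := fun i hi => sum_support_finite _ _ (hsupp3 i hi)
  have hfs3 := sum_support_finite Γ (fun i (b : Place k K) => ∑ j ∈ Γ.erase i,
      cl b (x i) (x j)) hs3
  have hJs : (Function.support J).Finite :=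
    hbad.subset fun b hb => by
      by_contra hcon
      exact hb (Set.indicator_of_notMem hcon _)
  have hlogψ := finsum_log hK (ψ n) hψn
  have hnrm := nrm_support hK _ (hx n hn)
  have hnrm' : (Function.support fun b : Place k K =>
      (w : ℤ) * WithZero.log (nrm b (x n))).Finite := by
    refine hnrm.subset fun b hb => ?_
    rw [Function.mem_support] at hb ⊢
    exact right_ne_zero_of_mul hb
  have hMs1 : (Function.support fun b : Place k K =>
      (w : ℤ) * WithZero.log (nrm b (x n)) + c b).Finite :=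
    (hnrm'.union hcs).subset (Function.support_add _ _)
  have hMs : (Function.support M).Finite :=
    (hMs1.union hlogψ.1).subset (Function.support_sub _ _)
  have hMJs : (Function.support fun b => M b + J b).Finite :=
    (hMs.union hJs).subset (Function.support_add _ _)
  have hglob : ∑ᶠ b : Place k K, ∑ i ∈ Γ, cl b (x i) (x n) ≤
      ∑ᶠ b : Place k K, ((M b + J b) + ∑ i ∈ Γ, ∑ j ∈ Γ.erase i, cl b (x i) (x j)) :=
    finsum_le_finsum' (sum_support_finite Γ _ hsupp1)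
      ((hMJs.union hfs3).subset (Function.support_add _ _)) hloc
  rw [finsum_sum_swap Γ _ hsupp1, finsum_add_distrib hMJs hfs3, finsum_add_distrib hMs hJs,
    finsum_sum_swap _ _ hs3] at hglob
  have h4 : ∑ i ∈ Γ, ∑ᶠ b : Place k K, ∑ j ∈ Γ.erase i, cl b (x i) (x j) = Cst := by
    rw [hCst]
    exact Finset.sum_congr rfl fun i hi => finsum_sum_swap _ _ (hsupp3 i hi)
  have h5 : ∑ i ∈ Γ, ∑ᶠ b : Place k K, cl b (x i) (x n) =
      ∑ i ∈ Γ, ht k (x i) + Γ.card * ht k (x n) -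
        ∑ i ∈ Γ, ht k (crossProduct (x i) (x n)) := by
    rw [← nsmul_eq_mul, ← Finset.sum_const, ← Finset.sum_add_distrib, ← Finset.sum_sub_distrib]
    exact Finset.sum_congr rfl fun i hi => finsum_cl hK (hne0 i hi) (hx n hn) (hdist i hi)
  have h6 : ∑ᶠ b, M b = w * ht k (x n) + ∑ᶠ b, c b := by
    rw [hM, finsum_sub_distrib hMs1 hlogψ.1, hlogψ.2, sub_zero, finsum_add_distrib hnrm' hcs,
      ← mul_finsum]
    rfl
  have h7 : ∑ᶠ b : Place k K, J b = (B.ncard : ℤ) := by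
    rw [hJ, finsum_eq_sum_of_support_subset (s := hbad.toFinset)]
    · rw [Finset.sum_congr rfl (g := fun _ => (1 : ℤ))]
      · rw [Finset.sum_const, nsmul_eq_mul, mul_one, Set.ncard_eq_toFinset_card _ hbad]
      · intro b hb
        exact Set.indicator_of_mem ((Set.Finite.mem_toFinset _).1 hb) _
    · intro b hb
      rw [Set.Finite.coe_toFinset]
      by_contra hcon
      exact hb (Set.indicator_of_notMem hcon _)
  have h13 := hlow n hn hnE
  rw [h4, h5, h6, h7] at hglob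
  have hwz : (w : ℤ) = (D : ℤ) ^ 2 + 2 * D + N + 3 := by rw [hw]; push_cast; ring
  have h0 := low_ht_nonneg hK (hx n hn)
  push_cast at h13
  rw [hwz] at hglob
  nlinarith [hglob, h13, h0]

theorem trunc [CharZero k] [CharZero K]
    (hK : IsFunctionField k K) {x : ℕ → Fin 3 → K} {S : Set ℕ} (hS : S.Infinite)
    (hx : ∀ n ∈ S, x n ≠ 0) (hnp : ∀ n ∈ S, ∀ n' ∈ S, n ≠ n' → ¬ PEq (x n) (x n'))
    {g : MvPolynomial (Fin 3) K} {D : ℕ} (hg : g.IsHomogeneous D) (hirr : Irreducible g)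
    (hgx : ∀ n ∈ S, eval (x n) g = 0) (hht : ∀ B : ℤ, {n | n ∈ S ∧ ht k (x n) ≤ B}.Finite)
    (N : ℕ) :
    ∃ (S' : Set ℕ) (Γ : Finset ℕ) (C : ℤ), S' ⊆ S ∧ S'.Infinite ∧ (↑Γ ⊆ S) ∧
      ∀ n ∈ S', n ∉ Γ ∧ (N : ℤ) * ht k (x n) ≤
        (({b : Place k K | ∃ i ∈ Γ, 0 < cl b (x i) (x n)}.ncard : ℕ) : ℤ) + C := by
  classical
  have hD : 0 < D := by
    rcases Nat.eq_zero_or_pos D with h0 | h0
    · subst h0
      exfalso
      have h1 : g.totalDegree = 0 := Nat.le_zero.1 hg.totalDegree_le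
      rw [totalDegree_eq_zero_iff_eq_C] at h1
      have h2 : coeff 0 g ≠ 0 := by
        intro h
        rw [h, C_0] at h1
        exact hirr.ne_zero h1
      apply hirr.not_isUnit
      rw [h1]
      exact (isUnit_iff_ne_zero.2 h2).map C
    · exact h0
  obtain ⟨δ, hδ⟩ := Pool.Agent.Helper31.RRK.exists_ne_zero hK
  rcases dichotomy δ hS hx hnp hg hirr hgx (w := D ^ 2 + 2 * D + N + 3) (by omega) with
    ⟨i, j, S', hS'S, hS'inf, hal⟩ | ⟨S', u, U, A, hS'S, hS'inf, hU, hA, hgU, hrel⟩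
  · obtain ⟨Γ, C, E, hΓ, hE, h⟩ := trunc_alpha hK hδ hS'inf (fun n hn => hx n (hS'S hn))
      (fun n hn n' hn' => hnp n (hS'S hn) n' (hS'S hn')) hg hirr hD
      (fun n hn => hgx n (hS'S hn)) N hal
    exact ⟨S' \ E, Γ, C, Set.sdiff_subset.trans hS'S, hS'inf.sdiff hE, hΓ.trans hS'S,
      fun n hn => h n hn.1 hn.2⟩
  · exfalso
    refine ode_false hK hδ hS'inf (fun n hn => hx n (hS'S hn))
      (fun n hn n' hn' => hnp n (hS'S hn) n' (hS'S hn')) hg hirr
      (fun n hn => hgx n (hS'S hn)) (fun B => ?_) hU hA hgU hrel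
    exact (hht B).subset fun n hn => ⟨hS'S hn.1, hn.2⟩

end Pool.Agent.Helper30.TK
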